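import Mathlib

/-!
The Grigorchuk group, realised on its half line Schreier graph, is a torsion group.
-/

set_option autoImplicit false

namespace Pool.Agent.Lib.MP_4717c3_al

/-- The swap of the even edges. -/
def aFun (n : ℕ) : ℕ := if n % 2 = 0 then n + 1 else n - 1

theorem aFun_inv : Function.Involutive aFun := by
  intro n
  unfold aFun
  split_ifs <;> omega

def A : Equiv.Perm ℕ := aFun_inv.toPerm

theorem A_apply (n : ℕ) : A n = if n % 2 = 0 then n + 1 else n - 1 := rfl

/-- The swap of the odd edges selected by `f`. -/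
def xFun (f : ℕ → Bool) (n : ℕ) : ℕ :=
  if n % 2 = 1 then (if f (n / 2) = true then n + 1 else n)
  else (if n ≠ 0 ∧ f (n / 2 - 1) = true then n - 1 else n)

theorem xFun_odd (f : ℕ → Bool) (m : ℕ) :
    xFun f (2 * m + 1) = if f m = true then 2 * m + 2 else 2 * m + 1 := by
  unfold xFun
  rw [if_pos (by omega), show (2 * m + 1) / 2 = m by omega]

theorem xFun_even (f : ℕ → Bool) (m : ℕ) :
    xFun f (2 * m + 2) = if f m = true then 2 * m + 1 else 2 * m + 2 := by
  unfold xFun
  rw [if_neg (by omega), show (2 * m + 2) / 2 - 1 = m by omega]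
  by_cases h : f m = true <;> simp [h]

theorem xFun_zero (f : ℕ → Bool) : xFun f 0 = 0 := by
  simp [xFun]

theorem nat_cases (n : ℕ) : n = 0 ∨ (∃ m, n = 2 * m + 1) ∨ ∃ m, n = 2 * m + 2 := by
  rcases Nat.even_or_odd' n with ⟨m, h | h⟩
  · rcases m with _ | m
    · left; omega
    · right; right; exact ⟨m, by omega⟩
  · right; left; exact ⟨m, h⟩

theorem xFun_xFun (f g : ℕ → Bool) (n : ℕ) :
    xFun f (xFun g n) = xFun (fun m => xor (f m) (g m)) n := by
  rcases nat_cases n with rfl | ⟨m, rfl⟩ | ⟨m, rfl⟩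
  · simp [xFun_zero]
  · rw [xFun_odd, xFun_odd]
    cases hf : f m <;> cases hg : g m <;> simp [xFun_odd, xFun_even, hf]
  · rw [xFun_even, xFun_even]
    cases hf : f m <;> cases hg : g m <;> simp [xFun_odd, xFun_even, hf]

theorem xFun_false (n : ℕ) : xFun (fun _ => false) n = n := by
  unfold xFun
  simp

theorem xFun_inv (f : ℕ → Bool) : Function.Involutive (xFun f) := by
  intro n
  rw [xFun_xFun]
  simp [xFun_false]

/-- The two adic valuation of `m + 1` modulo three. -/
def lev (m : ℕ) : ZMod 3 := if h : m % 2 = 0 then 0 else lev (m / 2) + 1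
  decreasing_by omega

theorem lev_even (t : ℕ) : lev (2 * t) = 0 := by
  rw [lev, dif_pos (by omega)]

theorem lev_odd (t : ℕ) : lev (2 * t + 1) = lev t + 1 := by
  rw [lev, dif_neg (by omega), show (2 * t + 1) / 2 = t by omega]

/-- The Klein four group letters. -/
inductive Kl : Type
  | o | b | c | d
  deriving DecidableEq

def Kl.chi : Kl → ZMod 3 → Bool
  | .o, _ => false
  | .b, i => decide (i ≠ 2)
  | .c, i => decide (i ≠ 1)
  | .d, i => decide (i ≠ 0)

def Kl.mul : Kl → Kl → Kl
  | .o, x => x
  | x, .o => x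
  | .b, .b => .o
  | .b, .c => .d
  | .b, .d => .c
  | .c, .b => .d
  | .c, .c => .o
  | .c, .d => .b
  | .d, .b => .c
  | .d, .c => .b
  | .d, .d => .o

def Kl.next : Kl → Kl
  | .o => .o
  | .b => .c
  | .c => .d
  | .d => .b

def Kl.wt : Kl → ℕ
  | .o => 0
  | .b => 4
  | .c => 3
  | .d => 2

theorem chi_mul (x y : Kl) (i : ZMod 3) : (x.mul y).chi i = xor (x.chi i) (y.chi i) := by
  revert i
  cases x <;> cases y <;> decide

theorem chi_next (x : Kl) (i : ZMod 3) : x.next.chi i = x.chi (i + 1) := by
  revert i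
  cases x <;> decide

theorem wt_mul (x y : Kl) : (x.mul y).wt ≤ x.wt + y.wt := by
  cases x <;> cases y <;> decide

def X (x : Kl) : Equiv.Perm ℕ := (xFun_inv (fun m => x.chi (lev m))).toPerm

theorem X_apply (x : Kl) (n : ℕ) : X x n = xFun (fun m => x.chi (lev m)) n := rfl

theorem X_mul (x y : Kl) : X x * X y = X (x.mul y) := by
  ext n
  simp only [Equiv.Perm.coe_mul, Function.comp_apply, X_apply, xFun_xFun, chi_mul]

theorem X_o : X .o = 1 := by
  ext n
  simp [X_apply, Kl.chi, xFun_false]

theorem X_sq (x : Kl) : X x * X x = 1 := by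
  rw [X_mul, ← X_o]
  cases x <;> rfl

theorem A_sq : A * A = 1 := by
  ext n
  exact aFun_inv n

/-- The two embeddings of the half line into itself. -/
def emb (e : Bool) (m : ℕ) : ℕ := if e = true then 2 * m + 1 - m % 2 else 2 * m + m % 2

theorem emb_surj (n : ℕ) : ∃ e m, n = emb e m := by
  by_cases h : n % 2 = (n / 2) % 2
  · exact ⟨false, n / 2, by simp [emb]; omega⟩
  · exact ⟨true, n / 2, by simp [emb]; omega⟩

theorem A_emb (e : Bool) (m : ℕ) : A (emb e m) = emb (!e) m := by
  cases e <;> simp only [emb, A_apply] <;> simp <;> split_ifs <;> omega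

/-- A letter is `none` for the generator `A`. -/
def evL : Option Kl → Equiv.Perm ℕ
  | none => A
  | some x => X x

def wtL : Option Kl → ℕ
  | none => 3
  | some x => x.wt

def secL (x : Kl) (e : Bool) : Option Kl :=
  if e = true then (if x.chi 0 = true then none else some .o) else some x.next

theorem X_emb (x : Kl) (e : Bool) (m : ℕ) : X x (emb e m) = emb e (evL (secL x e) m) := by
  cases e
  · simp only [secL, Bool.false_eq_true, if_false, evL, X_apply]
    rcases nat_cases m with rfl | ⟨t, rfl⟩ | ⟨t, rfl⟩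
    · simp [emb, xFun_zero]
    · have e1 : emb false (2 * t + 1) = 2 * (2 * t + 1) + 1 := by simp [emb]
      rw [e1, xFun_odd, xFun_odd, lev_odd, chi_next]
      split_ifs <;> simp [emb] <;> omega
    · have e1 : emb false (2 * t + 2) = 2 * (2 * t + 1) + 2 := by simp [emb]; omega
      rw [e1, xFun_even, xFun_even, lev_odd, chi_next]
      split_ifs <;> simp [emb] <;> omega
  · simp only [secL, if_true, X_apply]
    rcases Nat.even_or_odd' m with ⟨t, rfl | rfl⟩
    · have e1 : emb true (2 * t) = 2 * (2 * t) + 1 := by simp [emb]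
      rw [e1, xFun_odd, lev_even]
      split_ifs
      · simp [evL, A_apply, emb]; omega
      · simp [evL, X_o, emb]
    · have e1 : emb true (2 * t + 1) = 2 * (2 * t) + 2 := by simp [emb]; omega
      rw [e1, xFun_even, lev_even]
      split_ifs
      · simp [evL, A_apply, emb]
      · simp [evL, X_o, emb]; omega

theorem wt_sec (x : Kl) (e : Bool) : wtL (secL x e) + wtL (secL x (!e)) < 3 + x.wt := by
  cases x <;> cases e <;> decide

def ev (w : List (Option Kl)) : Equiv.Perm ℕ := (w.map evL).prod

def wt (w : List (Option Kl)) : ℕ := (w.map wtL).sum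

def W : List Kl → Equiv.Perm ℕ
  | [] => 1
  | x :: l => X x * A * W l

def wtW : List Kl → ℕ
  | [] => 0
  | x :: l => 3 + x.wt + wtW l

def par : List Kl → Bool
  | [] => false
  | _ :: l => !par l

def sw (e : Bool) : List Kl → List (Option Kl)
  | [] => []
  | x :: l => secL x (!(xor e (par l))) :: sw e l

theorem W_emb (l : List Kl) (e : Bool) (m : ℕ) :
    W l (emb e m) = emb (xor e (par l)) (ev (sw e l) m) := by
  induction l with
  | nil => simp [W, par, sw, ev]
  | cons x l ih =>
    simp only [W, par, sw, Equiv.Perm.coe_mul, Function.comp_apply, ih, A_emb, X_emb]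
    simp only [ev, List.map_cons, List.prod_cons, Equiv.Perm.coe_mul, Function.comp_apply]
    congr 1
    cases e <;> cases par l <;> rfl

theorem wt_sw (l : List Kl) (e : Bool) : wt (sw e l) + wt (sw (!e) l) + l.length ≤ wtW l := by
  induction l with
  | nil => simp [sw, wt, wtW]
  | cons x l ih =>
    have h := wt_sec x (!(xor e (par l)))
    have e1 : (!(!(xor e (par l)))) = !(xor (!e) (par l)) := by
      cases e <;> cases par l <;> rfl
    rw [e1] at h
    simp only [sw, wt, wtW, List.map_cons, List.sum_cons, List.length_cons] at ih ⊢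
    omega

theorem normal_form (w : List (Option Kl)) :
    ∃ (l : List Kl) (v : Kl), ev w = W l * X v ∧ wtW l + v.wt ≤ wt w := by
  induction w with
  | nil => exact ⟨[], .o, by simp [ev, W, X_o], by simp [wtW, Kl.wt]⟩
  | cons y w ih =>
    obtain ⟨l, v, h1, h2⟩ := ih
    have e1 : ev (y :: w) = evL y * ev w := by simp [ev]
    have e2 : wt (y :: w) = wtL y + wt w := by simp [wt]
    rcases y with _ | x
    · refine ⟨.o :: l, v, ?_, ?_⟩
      · rw [e1, h1]; simp [W, X_o, evL, mul_assoc]
      · rw [e2]; simp only [wtW, wtL, Kl.wt] at h2 ⊢; omega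
    · rcases l with _ | ⟨z, l⟩
      · refine ⟨[], x.mul v, ?_, ?_⟩
        · rw [e1, h1]; simp [W, evL, X_mul]
        · have := wt_mul x v
          rw [e2]; simp only [wtW, wtL] at h2 ⊢; omega
      · refine ⟨x.mul z :: l, v, ?_, ?_⟩
        · rw [e1, h1]; simp only [W, evL, ← X_mul, mul_assoc]
        · have := wt_mul x z
          rw [e2]; simp only [wtW, wtL] at h2 ⊢; omega

theorem finOrder_of_sections (g : Equiv.Perm ℕ) (s : Bool → Equiv.Perm ℕ)
    (h : ∀ e m, g (emb e m) = emb e (s e m)) (hs : ∀ e, IsOfFinOrder (s e)) :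
    IsOfFinOrder g := by
  have hp : ∀ (k : ℕ) e m, (g ^ k) (emb e m) = emb e ((s e ^ k) m) := by
    intro k
    induction k with
    | zero => simp
    | succ k ih =>
      intro e m
      simp only [pow_succ', Equiv.Perm.coe_mul, Function.comp_apply, ih, h]
  obtain ⟨n0, h0, e0⟩ := isOfFinOrder_iff_pow_eq_one.mp (hs false)
  obtain ⟨n1, h1, e1⟩ := isOfFinOrder_iff_pow_eq_one.mp (hs true)
  refine isOfFinOrder_iff_pow_eq_one.mpr ⟨n0 * n1, Nat.mul_pos h0 h1, ?_⟩
  ext n
  obtain ⟨e, m, rfl⟩ := emb_surj n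
  rw [hp]
  cases e
  · rw [pow_mul, e0]; simp
  · rw [mul_comm, pow_mul, e1]; simp

theorem ev_append (w w' : List (Option Kl)) : ev (w ++ w') = ev w * ev w' := by
  simp [ev]

theorem wt_append (w w' : List (Option Kl)) : wt (w ++ w') = wt w + wt w' := by
  simp [wt]

theorem finOrder_ev (n : ℕ) : ∀ w : List (Option Kl), wt w ≤ n → IsOfFinOrder (ev w) := by
  induction n using Nat.strong_induction_on with
  | _ n ih =>
    have key : ∀ l : List Kl, l ≠ [] → wtW l ≤ n → IsOfFinOrder (W l) := by
      intro l hl hn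
      have hlen : 0 < l.length := List.length_pos_iff.mpr hl
      cases hp : par l
      · refine finOrder_of_sections _ (fun e => ev (sw e l)) (fun e m => ?_) (fun e => ?_)
        · rw [W_emb, hp]; simp
        · have := wt_sw l e
          exact ih (wt (sw e l)) (by omega) _ le_rfl
      · refine IsOfFinOrder.of_pow (n := 2) ?_ two_ne_zero
        refine finOrder_of_sections _ (fun e => ev (sw (!e) l ++ sw e l)) (fun e m => ?_)
          (fun e => ?_)
        · rw [sq, Equiv.Perm.coe_mul, Function.comp_apply, W_emb, W_emb, hp, ev_append]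
          cases e <;> rfl
        · have := wt_sw l e
          exact ih (wt (sw (!e) l ++ sw e l)) (by rw [wt_append]; omega) _ le_rfl
    intro w hw
    obtain ⟨l, v, h1, h2⟩ := normal_form w
    rw [h1]
    rcases l with _ | ⟨z, l⟩
    · simp only [W, one_mul]
      exact isOfFinOrder_iff_pow_eq_one.mpr ⟨2, two_pos, by rw [sq, X_sq]⟩
    · have h3 := key (v.mul z :: l) (by simp) (by
        have := wt_mul v z
        simp only [wtW] at h2 ⊢; omega)
      have h4 : IsConj (W (v.mul z :: l)) (W (z :: l) * X v) := by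
        rw [isConj_iff]
        refine ⟨(X v)⁻¹, ?_⟩
        simp only [W, ← X_mul]
        group
      exact h4.isOfFinOrder h3

theorem evL_inv (y : Option Kl) : (evL y)⁻¹ = evL y := by
  rcases y with _ | x
  · exact inv_eq_of_mul_eq_one_right A_sq
  · exact inv_eq_of_mul_eq_one_right (X_sq x)

theorem ev_reverse (w : List (Option Kl)) : ev w.reverse = (ev w)⁻¹ := by
  induction w with
  | nil => simp [ev]
  | cons y w ih =>
    rw [List.reverse_cons, ev_append, ih]
    simp [ev, evL_inv]

/-- The Grigorchuk group. -/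
def grig : Subgroup (Equiv.Perm ℕ) where
  carrier := {g | ∃ w, ev w = g}
  mul_mem' := by
    rintro _ _ ⟨w, rfl⟩ ⟨w', rfl⟩
    exact ⟨w ++ w', ev_append _ _⟩
  one_mem' := ⟨[], rfl⟩
  inv_mem' := by
    rintro _ ⟨w, rfl⟩
    exact ⟨w.reverse, ev_reverse w⟩

theorem evL_mem (y : Option Kl) : evL y ∈ grig := ⟨[y], by simp [ev]⟩

theorem grig_torsion (g : grig) : IsOfFinOrder g := by
  obtain ⟨g, w, rfl⟩ := g
  rw [← Submonoid.isOfFinOrder_coe]
  exact finOrder_ev _ w le_rfl

end Pool.Agent.Lib.MP_4717c3_al
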